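import Mathlib

/-!
# Similar copies of a tetrahedron in a box of the integer lattice: rotations by integer quaternions
-/

set_option autoImplicit false

namespace Pool.Agent.U384.ST

open Finset

/-- Three-dimensional Euclidean space. -/
abbrev E : Type := EuclideanSpace ℝ (Fin 3)

/-- A similarity of `ℝ³`: all distances are multiplied by the same positive factor. -/
def IsSimilarity (φ : E → E) : Prop := ∃ r : ℝ, 0 < r ∧ ∀ x y, dist (φ x) (φ y) = r * dist x y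

/-- The matrix of `x ↦ q x q̄`, `q = a + b i + c j + d k`. -/
def rot (q : Fin 4 → ℤ) : Matrix (Fin 3) (Fin 3) ℤ :=
  !![q 0 ^ 2 + q 1 ^ 2 - q 2 ^ 2 - q 3 ^ 2, 2 * (q 1 * q 2 - q 0 * q 3), 2 * (q 1 * q 3 + q 0 * q 2);
     2 * (q 1 * q 2 + q 0 * q 3), q 0 ^ 2 - q 1 ^ 2 + q 2 ^ 2 - q 3 ^ 2, 2 * (q 2 * q 3 - q 0 * q 1);
     2 * (q 1 * q 3 - q 0 * q 2), 2 * (q 2 * q 3 + q 0 * q 1), q 0 ^ 2 - q 1 ^ 2 - q 2 ^ 2 + q 3 ^ 2]

/-- The affine map `x ↦ p + q x q̄`. -/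
noncomputable def aff (p : Fin 3 → ℤ) (q : Fin 4 → ℤ) : E →ᵃ[ℝ] E where
  toFun x := WithLp.toLp 2 (fun i => (p i : ℝ) + ∑ j, (rot q i j : ℝ) * x j)
  linear :=
    { toFun := fun x => WithLp.toLp 2 (fun i => ∑ j, (rot q i j : ℝ) * x j)
      map_add' := by
        intro x y
        ext i
        simp [mul_add, Finset.sum_add_distrib]
      map_smul' := by
        intro c x
        ext i
        simp only [PiLp.smul_apply, smul_eq_mul, RingHom.id_apply, Finset.mul_sum]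
        exact Finset.sum_congr rfl fun j _ => by ring }
  map_vadd' := by
    intro x v
    ext i
    simp only [vadd_eq_add, PiLp.add_apply, mul_add, Finset.sum_add_distrib, LinearMap.coe_mk,
      AddHom.coe_mk]
    ring

lemma aff_apply (p : Fin 3 → ℤ) (q : Fin 4 → ℤ) (x : E) (i : Fin 3) :
    aff p q x i = (p i : ℝ) + ∑ j, (rot q i j : ℝ) * x j := rfl

/-- The norm of the quaternion. -/
def nrm (q : Fin 4 → ℤ) : ℤ := q 0 ^ 2 + q 1 ^ 2 + q 2 ^ 2 + q 3 ^ 2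

lemma aff_dist (p : Fin 3 → ℤ) (q : Fin 4 → ℤ) (x y : E) :
    dist (aff p q x) (aff p q y) = (nrm q : ℝ) * dist x y := by
  have h0 : (0 : ℝ) ≤ (nrm q : ℝ) := by
    unfold nrm
    push_cast
    positivity
  rw [EuclideanSpace.dist_eq, EuclideanSpace.dist_eq, ← Real.sqrt_sq h0,
    ← Real.sqrt_mul (sq_nonneg _)]
  congr 1
  simp only [Real.dist_eq, sq_abs, Fin.sum_univ_three, aff_apply, rot, nrm, Matrix.of_apply,
    Matrix.cons_val', Matrix.cons_val_zero, Matrix.cons_val_one, Matrix.cons_val]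
  push_cast
  ring

lemma aff_similarity (p : Fin 3 → ℤ) (q : Fin 4 → ℤ) (hq : 0 < q 0) :
    IsSimilarity (aff p q) := by
  refine ⟨nrm q, ?_, aff_dist p q⟩
  have : 0 < nrm q := by unfold nrm; positivity
  exact_mod_cast this

lemma rot_inj {q q' : Fin 4 → ℤ} (hq : 0 < q 0) (hq' : 0 < q' 0) (h : rot q = rot q') :
    q = q' := by
  have e : ∀ i j, rot q i j = rot q' i j := fun i j => by rw [h]
  have e00 := e 0 0
  have e11 := e 1 1
  have e22 := e 2 2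
  have e01 := e 0 1
  have e10 := e 1 0
  have e02 := e 0 2
  have e20 := e 2 0
  have e12 := e 1 2
  have e21 := e 2 1
  simp only [rot, Matrix.of_apply, Matrix.cons_val', Matrix.cons_val_zero, Matrix.cons_val_one,
    Matrix.cons_val] at e00 e11 e22 e01 e10 e02 e20 e12 e21
  have hN : nrm q ^ 2 = nrm q' ^ 2 := by
    have h1 : nrm q ^ 2 = (q 0 ^ 2 + q 1 ^ 2 - q 2 ^ 2 - q 3 ^ 2) ^ 2 +
        (2 * (q 1 * q 2 + q 0 * q 3)) ^ 2 + (2 * (q 1 * q 3 - q 0 * q 2)) ^ 2 := by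
      unfold nrm; ring
    have h2 : nrm q' ^ 2 = (q' 0 ^ 2 + q' 1 ^ 2 - q' 2 ^ 2 - q' 3 ^ 2) ^ 2 +
        (2 * (q' 1 * q' 2 + q' 0 * q' 3)) ^ 2 + (2 * (q' 1 * q' 3 - q' 0 * q' 2)) ^ 2 := by
      unfold nrm; ring
    rw [h1, h2, e00, e10, e20]
  have hN0 : 0 < nrm q := by unfold nrm; positivity
  have hN0' : 0 < nrm q' := by unfold nrm; positivity
  have hNN : nrm q = nrm q' := by nlinarith
  have ha2 : q 0 ^ 2 = q' 0 ^ 2 := by
    have h1 : 4 * q 0 ^ 2 = (q 0 ^ 2 + q 1 ^ 2 - q 2 ^ 2 - q 3 ^ 2) +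
        (q 0 ^ 2 - q 1 ^ 2 + q 2 ^ 2 - q 3 ^ 2) + (q 0 ^ 2 - q 1 ^ 2 - q 2 ^ 2 + q 3 ^ 2) +
        nrm q := by unfold nrm; ring
    have h2 : 4 * q' 0 ^ 2 = (q' 0 ^ 2 + q' 1 ^ 2 - q' 2 ^ 2 - q' 3 ^ 2) +
        (q' 0 ^ 2 - q' 1 ^ 2 + q' 2 ^ 2 - q' 3 ^ 2) + (q' 0 ^ 2 - q' 1 ^ 2 - q' 2 ^ 2 + q' 3 ^ 2) +
        nrm q' := by unfold nrm; ring
    have h3 : 4 * q 0 ^ 2 = 4 * q' 0 ^ 2 := by rw [h1, h2, e00, e11, e22, hNN]
    linarith
  have ha : q 0 = q' 0 := by nlinarith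
  have hb : q 0 * q 1 = q 0 * q' 1 := by
    have : 4 * (q 0 * q 1) = 4 * (q' 0 * q' 1) := by linarith
    rw [ha] at this ⊢; linarith
  have hc : q 0 * q 2 = q 0 * q' 2 := by
    have : 4 * (q 0 * q 2) = 4 * (q' 0 * q' 2) := by linarith
    rw [ha] at this ⊢; linarith
  have hd : q 0 * q 3 = q 0 * q' 3 := by
    have : 4 * (q 0 * q 3) = 4 * (q' 0 * q' 3) := by linarith
    rw [ha] at this ⊢; linarith
  funext i
  fin_cases i
  · exact ha
  · exact mul_left_cancel₀ hq.ne' hb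
  · exact mul_left_cancel₀ hq.ne' hc
  · exact mul_left_cancel₀ hq.ne' hd

/-- The affine maps are determined by their values on a set with affine span `ℝ³`. -/
lemma aff_inj {p p' : Fin 3 → ℤ} {q q' : Fin 4 → ℤ} (hq : 0 < q 0) (hq' : 0 < q' 0) {T : Set E}
    (hT : affineSpan ℝ T = ⊤) (h : ∀ x ∈ T, aff p q x = aff p' q' x) : p = p' ∧ q = q' := by
  have h1 : aff p q = aff p' q' := AffineMap.ext_on hT h
  have h2 : ∀ x : E, ∀ i, (p i : ℝ) + ∑ j, (rot q i j : ℝ) * x j =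
      (p' i : ℝ) + ∑ j, (rot q' i j : ℝ) * x j := by
    intro x i
    rw [← aff_apply, ← aff_apply, h1]
  have h3 : p = p' := by
    funext i
    have := h2 0 i
    simp at this
    exact_mod_cast this
  refine ⟨h3, rot_inj hq hq' ?_⟩
  ext i j
  have := h2 (EuclideanSpace.single j 1) i
  rw [h3] at this
  simp only [PiLp.single_apply, mul_ite, mul_one, mul_zero, Finset.sum_ite_eq',
    Finset.mem_univ, if_true] at this
  have := add_left_cancel this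
  exact_mod_cast this

end Pool.Agent.U384.ST
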