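import Pool.Agent.U384.ST.Basic

/-!
# Counting similar copies in a box
-/

set_option autoImplicit false

namespace Pool.Agent.U384.ST

open Finset

open Classical in
/-- The lattice points of a cube. -/
noncomputable def cube (a b : ℤ) : Finset E :=
  (Fintype.piFinset (fun _ : Fin 3 => Icc a b)).image
    (fun z : Fin 3 → ℤ => (WithLp.toLp 2 (fun i => (z i : ℝ)) : E))

lemma card_cube_le (a b : ℤ) : (cube a b).card ≤ (b + 1 - a).toNat ^ 3 := by
  classical
  unfold cube
  refine Finset.card_image_le.trans ?_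
  rw [Fintype.card_piFinset]
  simp

/-- the copies -/
noncomputable def copies (P T : Finset E) : Set (Finset E) :=
  {S | S ⊆ P ∧ ∃ φ : E → E, IsSimilarity φ ∧ (S : Set E) = φ '' (T : Set E)}

lemma copies_finite (P T : Finset E) : (copies P T).Finite :=
  (P.powerset.finite_toSet).subset fun S hS => by
    simpa using hS.1

lemma IsSimilarity.comp {φ ψ : E → E} (h : IsSimilarity φ) (h' : IsSimilarity ψ) :
    IsSimilarity (φ ∘ ψ) := by
  obtain ⟨r, hr, h⟩ := h
  obtain ⟨s, hs, h'⟩ := h'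
  refine ⟨r * s, mul_pos hr hs, fun x y => ?_⟩
  simp only [Function.comp]
  rw [h, h', mul_assoc]

lemma rot_bound {q : Fin 4 → ℤ} {m : ℤ} (hq : ∀ i, 1 ≤ q i ∧ q i ≤ m) (i j : Fin 3) :
    |rot q i j| ≤ 4 * m ^ 2 := by
  have hm : 1 ≤ m := (hq 0).1.trans (hq 0).2
  have hb : ∀ i j, 0 ≤ q i * q j ∧ q i * q j ≤ m ^ 2 := fun i j =>
    ⟨mul_nonneg (by linarith [(hq i).1]) (by linarith [(hq j).1]), by
      rw [sq]; exact mul_le_mul (hq i).2 (hq j).2 (by linarith [(hq j).1]) (by linarith)⟩
  have h00 := hb 0 0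
  have h11 := hb 1 1
  have h22 := hb 2 2
  have h33 := hb 3 3
  have h12 := hb 1 2
  have h03 := hb 0 3
  have h13 := hb 1 3
  have h02 := hb 0 2
  have h23 := hb 2 3
  have h01 := hb 0 1
  rw [abs_le]
  fin_cases i <;> fin_cases j <;>
    simp only [rot, Matrix.of_apply, Matrix.cons_val', Matrix.cons_val_zero, Matrix.cons_val_one,
      Matrix.cons_val, Fin.zero_eta, Fin.mk_one, Fin.reduceFinMk] <;>
    constructor <;> nlinarith

/-- many copies in a cube -/
theorem many_copies (T : Finset E) (χ : E →ᵃ[ℝ] E) (hχs : Function.Surjective χ)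
    (hχ : IsSimilarity χ) (hT : affineSpan ℝ (T : Set E) = ⊤) (K : ℕ)
    (hK : ∀ x ∈ T, ∀ i, ∃ z : ℤ, χ x i = z ∧ |z| ≤ K) (m : ℕ) (hm : 1 ≤ m) (P : Finset E)
    (hP : cube (1 - 12 * K * m ^ 2) (m ^ 2 + 12 * K * m ^ 2) ⊆ P) :
    m ^ 10 ≤ T.card ^ T.card * (copies P T).ncard := by
  classical
  set D : Finset ((Fin 3 → ℤ) × (Fin 4 → ℤ)) :=
    (Fintype.piFinset (fun _ : Fin 3 => Icc (1 : ℤ) (m ^ 2))) ×ˢ
      (Fintype.piFinset (fun _ : Fin 4 => Icc (1 : ℤ) m)) with hD
  have hDcard : D.card = m ^ 10 := by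
    rw [hD, card_product, Fintype.card_piFinset, Fintype.card_piFinset]
    simp only [Int.card_Icc, add_sub_cancel_right, prod_const, card_univ, Fintype.card_fin,
      Int.toNat_natCast]
    have : ((m : ℤ) ^ 2).toNat = m ^ 2 := by
      rw [← Nat.cast_pow, Int.toNat_natCast]
    rw [this]
    ring
  have hDmem : ∀ d ∈ D, (∀ i, 1 ≤ d.1 i ∧ d.1 i ≤ (m : ℤ) ^ 2) ∧
      (∀ i, 1 ≤ d.2 i ∧ d.2 i ≤ (m : ℤ)) := by
    intro d hd
    rw [hD, mem_product, Fintype.mem_piFinset, Fintype.mem_piFinset] at hd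
    exact ⟨fun i => mem_Icc.1 (hd.1 i), fun i => mem_Icc.1 (hd.2 i)⟩
  let f : (Fin 3 → ℤ) × (Fin 4 → ℤ) → Finset E := fun d => T.image (fun x => aff d.1 d.2 (χ x))
  have hspan : affineSpan ℝ (χ '' (T : Set E)) = ⊤ :=
    AffineMap.span_eq_top_of_surjective χ hχs hT
  -- the fibres
  have h1 : D.card ≤ T.card ^ T.card * (D.image f).card := by
    apply card_le_mul_card_image
    intro S hS
    obtain ⟨d₀, hd₀, rfl⟩ := mem_image.1 hS
    have hcard : (f d₀).card ≤ T.card := card_image_le
    have hle : #{d ∈ D | f d = f d₀} ≤ Fintype.card (T → (f d₀ : Finset E)) := by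
      rw [← Fintype.card_coe]
      apply Fintype.card_le_of_injective
        (fun d : {d // d ∈ ({d ∈ D | f d = f d₀} : Finset _)} => fun x : T =>
          (⟨aff d.1.1 d.1.2 (χ x), by
            have h := (mem_filter.1 d.2).2
            exact (Finset.ext_iff.1 h _).1 (mem_image_of_mem (fun x => aff d.1.1 d.1.2 (χ x)) x.2)⟩ :
            (f d₀ : Finset E)))
      intro d d' hdd
      have hd := hDmem _ (mem_filter.1 d.2).1
      have hd' := hDmem _ (mem_filter.1 d'.2).1
      have h2 := aff_inj (p := d.1.1) (p' := d'.1.1) (q := d.1.2) (q' := d'.1.2)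
        (by have := (hd.2 0).1; omega) (by have := (hd'.2 0).1; omega) hspan (by
          rintro _ ⟨x, hx, rfl⟩
          have := congrFun hdd ⟨x, hx⟩
          exact congrArg Subtype.val this)
      exact Subtype.ext (Prod.ext h2.1 h2.2)
    refine hle.trans ?_
    rw [Fintype.card_fun, Fintype.card_coe, Fintype.card_coe]
    exact Nat.pow_le_pow_left hcard _
  -- the images are copies
  have h2 : (D.image f).card ≤ (copies P T).ncard := by
    rw [← Set.ncard_coe_finset]
    apply Set.ncard_le_ncard _ (copies_finite P T)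
    intro S hS
    obtain ⟨d, hd, rfl⟩ := mem_image.1 (mem_coe.1 hS)
    have hdm := hDmem d hd
    refine ⟨?_, (aff d.1 d.2) ∘ χ,
      (aff_similarity _ _ (by have := (hdm.2 0).1; omega)).comp hχ, ?_⟩
    · intro y hy
      obtain ⟨x, hx, rfl⟩ := mem_image.1 hy
      apply hP
      choose z hz hzK using hK x hx
      refine mem_image.2 ⟨fun i => d.1 i + ∑ j, rot d.2 i j * z j, ?_, ?_⟩
      · rw [Fintype.mem_piFinset]
        intro i
        have hb : |∑ j, rot d.2 i j * z j| ≤ 12 * K * m ^ 2 := by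
          calc |∑ j, rot d.2 i j * z j| ≤ ∑ j, |rot d.2 i j * z j| := abs_sum_le_sum_abs _ _
            _ ≤ ∑ _j : Fin 3, (4 * (m : ℤ) ^ 2) * K := by
                apply sum_le_sum
                intro j _
                rw [abs_mul]
                exact mul_le_mul (rot_bound hdm.2 i j) (hzK j) (abs_nonneg _) (by positivity)
            _ = 12 * K * m ^ 2 := by simp; ring
        rw [abs_le] at hb
        rw [mem_Icc]
        have := hdm.1 i
        constructor <;> linarith [hb.1, hb.2, this.1, this.2]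
      · ext i
        rw [aff_apply]
        push_cast
        simp only [hz]
    · simp only [f, coe_image, Set.image_comp]
      rw [← Set.image_comp]
      rfl
  calc m ^ 10 = D.card := hDcard.symm
    _ ≤ _ := h1
    _ ≤ _ := Nat.mul_le_mul_left _ h2

end Pool.Agent.U384.ST
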