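import Pool.Agent.U384.ST.Count

/-!
# The bound `c n ^ (5 / 3)` for the number of similar copies
-/

set_option autoImplicit false

namespace Pool.Agent.U384.ST

open Finset

lemma exists_sixth (A n : ℕ) (hA : 1 ≤ A) (hn : A ≤ n) :
    ∃ m : ℕ, 1 ≤ m ∧ A * m ^ 6 ≤ n ∧ n ≤ A * (64 * m ^ 6) := by
  classical
  set m := Nat.findGreatest (fun m => A * m ^ 6 ≤ n) n with hm
  have h1 : 1 ≤ m := by
    apply Nat.le_findGreatest (hA.trans hn)
    simpa using hn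
  have h2 : A * m ^ 6 ≤ n :=
    Nat.findGreatest_spec (P := fun m => A * m ^ 6 ≤ n) (hA.trans hn) (by simpa using hn)
  refine ⟨m, h1, h2, ?_⟩
  by_cases h : m + 1 ≤ n
  · have h3 : ¬ (A * (m + 1) ^ 6 ≤ n) := by
      apply Nat.findGreatest_is_greatest (P := fun m => A * m ^ 6 ≤ n) (n := n) _ h
      rw [← hm]; exact Nat.lt_succ_self m
    push Not at h3
    refine h3.le.trans (Nat.mul_le_mul_left _ ?_)
    calc (m + 1) ^ 6 ≤ (2 * m) ^ 6 := Nat.pow_le_pow_left (by omega) 6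
      _ = 64 * m ^ 6 := by ring
  · have : n ≤ m := by omega
    calc n ≤ m := this
      _ ≤ m ^ 6 := Nat.le_self_pow (by norm_num) m
      _ ≤ 64 * m ^ 6 := by omega
      _ ≤ A * (64 * m ^ 6) := Nat.le_mul_of_pos_left _ hA

lemma copies_mono {P Q T : Finset E} (h : P ⊆ Q) : (copies P T).ncard ≤ (copies Q T).ncard :=
  Set.ncard_le_ncard (fun _ hS => ⟨hS.1.trans h, hS.2⟩) (copies_finite Q T)

/-- integral version -/
theorem five_thirds_int (T : Finset E) (χ : E →ᵃ[ℝ] E) (hχs : Function.Surjective χ)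
    (hχ : IsSimilarity χ) (hT : affineSpan ℝ (T : Set E) = ⊤)
    (hK : ∀ x ∈ T, ∀ i, ∃ z : ℤ, χ x i = z) :
    ∃ c : ℝ, 0 < c ∧ ∃ n₀ : ℕ, ∀ n : ℕ, n₀ ≤ n → ∃ P : Finset E, P.card = n ∧
      c * (n : ℝ) ^ (5 / 3 : ℝ) ≤ (copies P T).ncard := by
  classical
  -- a bound for the coordinates
  obtain ⟨K, hK'⟩ : ∃ K : ℕ, ∀ x ∈ T, ∀ i, ∃ z : ℤ, χ x i = z ∧ |z| ≤ K := by
    choose! z hz using hK
    refine ⟨∑ x ∈ T, ∑ i, (z x i).natAbs, fun x hx i => ⟨z x i, hz x hx i, ?_⟩⟩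
    have h1 : (z x i).natAbs ≤ ∑ i, (z x i).natAbs :=
      single_le_sum (f := fun i => (z x i).natAbs) (fun _ _ => Nat.zero_le _) (mem_univ i)
    have h2 : ∑ i, (z x i).natAbs ≤ ∑ x ∈ T, ∑ i, (z x i).natAbs :=
      single_le_sum (f := fun x => ∑ i, (z x i).natAbs) (fun _ _ => Nat.zero_le _) hx
    have h3 : |z x i| = ((z x i).natAbs : ℤ) := Int.abs_eq_natAbs _
    rw [h3]
    exact_mod_cast h1.trans h2
  set A : ℕ := (1 + 24 * K) ^ 3 with hA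
  set B : ℕ := T.card ^ T.card with hB
  have hA1 : 1 ≤ A := Nat.one_le_pow _ _ (by omega)
  have hB1 : 1 ≤ B := by
    rcases Nat.eq_zero_or_pos T.card with h | h
    · rw [hB, h]; norm_num
    · exact Nat.one_le_pow _ _ h
  have hAr : (0 : ℝ) < A := by exact_mod_cast hA1
  have hBr : (0 : ℝ) < B := by exact_mod_cast hB1
  refine ⟨1 / (B * (64 * A : ℝ) ^ (5 / 3 : ℝ)), by positivity, A, fun n hn => ?_⟩
  obtain ⟨m, hm, h1, h2⟩ := exists_sixth A n hA1 hn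
  have hcube : (cube (1 - 12 * K * m ^ 2) (m ^ 2 + 12 * K * m ^ 2)).card ≤ n := by
    refine (card_cube_le _ _).trans (le_trans (le_of_eq ?_) h1)
    have : ((m : ℤ) ^ 2 + 12 * K * m ^ 2 + 1 - (1 - 12 * K * m ^ 2)).toNat =
        (1 + 24 * K) * m ^ 2 := by
      have h3 : ((m : ℤ) ^ 2 + 12 * K * m ^ 2 + 1 - (1 - 12 * K * m ^ 2)) =
          (((1 + 24 * K) * m ^ 2 : ℕ) : ℤ) := by
        push_cast; ring
      rw [h3, Int.toNat_natCast]
    rw [this, hA]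
    ring
  obtain ⟨P, hPs, hPc⟩ := Infinite.exists_superset_card_eq _ n hcube
  refine ⟨P, hPc, ?_⟩
  have h3 := many_copies T χ hχs hχ hT K hK' m hm P hPs
  have h4 : ((m : ℝ)) ^ 10 ≤ B * (copies P T).ncard := by exact_mod_cast h3
  have h5 : (n : ℝ) ^ (5 / 3 : ℝ) ≤ (64 * A : ℝ) ^ (5 / 3 : ℝ) * (m : ℝ) ^ 10 := by
    have h6 : (n : ℝ) ≤ (64 * A) * (m : ℝ) ^ 6 := by
      have : (n : ℝ) ≤ ((A * (64 * m ^ 6) : ℕ) : ℝ) := by exact_mod_cast h2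
      push_cast at this
      linarith
    calc (n : ℝ) ^ (5 / 3 : ℝ) ≤ ((64 * A) * (m : ℝ) ^ 6) ^ (5 / 3 : ℝ) :=
          Real.rpow_le_rpow (by positivity) h6 (by norm_num)
      _ = (64 * A : ℝ) ^ (5 / 3 : ℝ) * ((m : ℝ) ^ 6) ^ (5 / 3 : ℝ) :=
          Real.mul_rpow (by positivity) (by positivity)
      _ = (64 * A : ℝ) ^ (5 / 3 : ℝ) * (m : ℝ) ^ 10 := by
          congr 1
          rw [← Real.rpow_natCast (m : ℝ) 6, ← Real.rpow_mul (by positivity),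
            ← Real.rpow_natCast (m : ℝ) 10]
          norm_num
  rw [div_mul_eq_mul_div, one_mul, div_le_iff₀ (by positivity)]
  calc (n : ℝ) ^ (5 / 3 : ℝ) ≤ (64 * A : ℝ) ^ (5 / 3 : ℝ) * (m : ℝ) ^ 10 := h5
    _ ≤ (64 * A : ℝ) ^ (5 / 3 : ℝ) * (B * (copies P T).ncard) := by gcongr
    _ = (copies P T).ncard * (B * (64 * A : ℝ) ^ (5 / 3 : ℝ)) := by ring

/-- rational version -/
theorem five_thirds_rat (T : Finset E) (hT : affineSpan ℝ (T : Set E) = ⊤)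
    (ψ : E ≃ᵃ[ℝ] E) (hψ : IsSimilarity ψ) (hq : ∀ x ∈ T, ∀ i, ∃ q : ℚ, ψ x i = q) :
    ∃ c : ℝ, 0 < c ∧ ∃ n₀ : ℕ, ∀ n : ℕ, n₀ ≤ n → ∃ P : Finset E, P.card = n ∧
      c * (n : ℝ) ^ (5 / 3 : ℝ) ≤ (copies P T).ncard := by
  classical
  choose! r hr using hq
  set D : ℕ := ∏ x ∈ T, ∏ i, (r x i).den with hD
  have hD0 : 0 < D := prod_pos fun x _ => prod_pos fun i _ => (r x i).den_pos
  have hDr : (0 : ℝ) < D := by exact_mod_cast hD0
  have hdvd : ∀ x ∈ T, ∀ i, (r x i).den ∣ D := fun x hx i =>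
    (dvd_prod_of_mem (fun i => (r x i).den) (mem_univ i)).trans
      (dvd_prod_of_mem (fun x => ∏ i, (r x i).den) hx)
  refine five_thirds_int T ((D : ℝ) • (ψ : E →ᵃ[ℝ] E)) ?_ ?_ hT ?_
  · intro y
    obtain ⟨x, hx⟩ := ψ.surjective ((D : ℝ)⁻¹ • y)
    refine ⟨x, ?_⟩
    show (D : ℝ) • ψ x = y
    rw [hx, smul_inv_smul₀ hDr.ne']
  · obtain ⟨s, hs, h⟩ := hψ
    refine ⟨D * s, by positivity, fun x y => ?_⟩
    show dist ((D : ℝ) • ψ x) ((D : ℝ) • ψ y) = _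
    rw [dist_smul₀, h, Real.norm_of_nonneg hDr.le, mul_assoc]
  · intro x hx i
    obtain ⟨k, hk⟩ := hdvd x hx i
    refine ⟨k * (r x i).num, ?_⟩
    show ((D : ℝ) • ψ x) i = _
    rw [PiLp.smul_apply, hr x hx i, smul_eq_mul, hk]
    have h1 : ((r x i : ℚ) : ℝ) = (r x i).num / (r x i).den := by
      exact_mod_cast (Rat.num_div_den (r x i)).symm
    have h2 : ((r x i).den : ℝ) ≠ 0 := by exact_mod_cast (r x i).den_ne_zero
    rw [h1]
    push_cast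
    field_simp

end Pool.Agent.U384.ST
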